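import Mathlib

set_option autoImplicit false

/-! The algebra behind the equidistribution of two generating trees. -/

namespace Pool.Agent.Q95.DW
open Finset

variable {R : Type*} [CommRing R] (q : R)

/-- completions in the first tree: `.1 p c` from a free state, `.2 r P c` from a birth state -/
def A : ℕ → (ℕ → ℕ → R) × (ℕ → ℕ → ℕ → R)
  | 0 => (fun _ _ => 1, fun _ _ _ => 1)
  | m + 1 => (fun p c => ∑ i ∈ range p, (A m).2 (i + 1) (p + 1) c + (A m).1 p (c + 1) +
        q * ∑ j ∈ range (c + 1), (A m).1 (p + 1 + j) (c - j),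
      fun r P c => q * (∑ i ∈ range r, (A m).2 (i + 1) (P + 1) c +
        ∑ j ∈ range (c + 2), (A m).1 (P + j) (c + 1 - j)))

/-- completions in the second tree -/
def B : ℕ → (ℕ → ℕ → R) × (ℕ → ℕ → ℕ → R)
  | 0 => (fun _ _ => 1, fun _ _ _ => 1)
  | m + 1 => (fun p c => q * ∑ i ∈ range p, (B m).2 (i + 1) (p + 1) c + q * (B m).1 p (c + 1) +
        ∑ j ∈ range (c + 1), (B m).1 (p + 1 + j) (c - j),
      fun r P c => q * ∑ i ∈ range r, (B m).2 (i + 1) (P + 1) c +
        ∑ j ∈ range (c + 2), (B m).1 (P + j) (c + 1 - j))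

def G (m p c : ℕ) : R := q * (A q m).1 p c
def SS (m p k : ℕ) : R := ∑ j ∈ range (k + 1), G q m (p + j) (k - j)
def RR (m p n : ℕ) : R := ∑ j ∈ range (n + 1), (B q m).1 (p + j) (n - j)

lemma sum_diag_succ (f : ℕ → ℕ → R) (p k : ℕ) :
    ∑ j ∈ range (k + 2), f (p + j) (k + 1 - j) =
      f p (k + 1) + ∑ j ∈ range (k + 1), f (p + 1 + j) (k - j) := by
  rw [Finset.sum_range_succ', add_comm]
  congr 1
  refine Finset.sum_congr rfl fun j _ => ?_
  congr 1 <;> omega

lemma SS_succ (m p k : ℕ) : SS q m p (k + 1) = G q m p (k + 1) + SS q m (p + 1) k :=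
  sum_diag_succ (G q m) p k

lemma SS_zero (m p : ℕ) : SS q m p 0 = G q m p 0 := by
  unfold SS
  simp

lemma RR_succ (m p k : ℕ) : RR q m p (k + 1) = (B q m).1 p (k + 1) + RR q m (p + 1) k :=
  sum_diag_succ (B q m).1 p k

lemma RR_zero (m p : ℕ) : RR q m p 0 = (B q m).1 p 0 := by
  unfold RR
  simp

lemma uA_succ (m r P c : ℕ) : (A q (m + 1)).2 r P c =
    q * ∑ i ∈ range r, (A q m).2 (i + 1) (P + 1) c + SS q m P (c + 1) := by
  show q * (_ + _) = _
  unfold SS G
  rw [mul_add, Finset.mul_sum (range (c + 2))]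

lemma G_succ (m p c : ℕ) : G q (m + 1) p c = (A q (m + 1)).2 p p c + (q - 1) * SS q m (p + 1) c := by
  rw [uA_succ, SS_succ]
  show q * (_ + _ + _) = _
  have : q * ∑ j ∈ range (c + 1), (A q m).1 (p + 1 + j) (c - j) = SS q m (p + 1) c := by
    unfold SS G
    rw [Finset.mul_sum]
  rw [this]
  unfold G
  ring

lemma uB_succ (m r P c : ℕ) : (B q (m + 1)).2 r P c =
    q * ∑ i ∈ range r, (B q m).2 (i + 1) (P + 1) c + RR q m P (c + 1) := rfl

lemma gB_succ (m p c : ℕ) : (B q (m + 1)).1 p c =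
    (B q (m + 1)).2 p p c + (q - 1) * (B q m).1 p (c + 1) := by
  rw [uB_succ, RR_succ]
  show _ + _ + RR q m (p + 1) c = _
  ring

/-- the binomial transform -/
def LL (F : ℕ → ℕ → R) (m k : ℕ) : R :=
  ∑ i ∈ range (m + 1), ((k + i).choose k : R) * (q - 1) ^ i * F (m - i) (k + i)

def LL1 (F : ℕ → ℕ → R) (m k : ℕ) : R :=
  ∑ i ∈ range (m + 1), ((k + 1 + i).choose (k + 1) : R) * (q - 1) ^ i * F (m - i) (k + i)

/-- shift down -/
def DD (F : ℕ → ℕ → R) (m k : ℕ) : R := if k = 0 then 0 else F m (k - 1)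

lemma LL_DD_zero (F : ℕ → ℕ → R) (m : ℕ) :
    LL q (DD F) (m + 1) 0 = (q - 1) * LL q F m 0 := by
  unfold LL DD
  rw [Finset.sum_range_succ', Finset.mul_sum]
  simp only [Nat.add_zero, if_true, mul_zero, add_zero]
  refine Finset.sum_congr rfl fun i _ => ?_
  rw [if_neg (by omega)]
  have e1 : m + 1 - (i + 1) = m - i := by omega
  have e2 : 0 + (i + 1) - 1 = 0 + i := by omega
  rw [e1, e2, Nat.choose_zero_right, Nat.choose_zero_right, pow_succ]
  ring

lemma LL_DD_succ (F : ℕ → ℕ → R) (m k : ℕ) :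
    LL q (DD F) (m + 1) (k + 1) = LL q F (m + 1) k + (q - 1) * LL q F m (k + 1) := by
  unfold LL DD
  have h : ∀ i ∈ range (m + 1 + 1), (((k + 1 + i).choose (k + 1) : ℕ) : R) * (q - 1) ^ i *
      (if k + 1 + i = 0 then 0 else F (m + 1 - i) (k + 1 + i - 1)) =
      ((k + i).choose k : R) * (q - 1) ^ i * F (m + 1 - i) (k + i) +
      ((k + i).choose (k + 1) : R) * (q - 1) ^ i * F (m + 1 - i) (k + i) := by
    intro i _
    rw [if_neg (by omega)]
    have e1 : k + 1 + i = k + i + 1 := by omega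
    rw [e1, Nat.choose_succ_succ]
    have e2 : k + i + 1 - 1 = k + i := by omega
    rw [e2]
    push_cast
    ring
  rw [Finset.sum_congr rfl h, Finset.sum_add_distrib]
  congr 1
  rw [Finset.sum_range_succ', Finset.mul_sum]
  simp only [Nat.add_zero, Nat.choose_succ_self, Nat.cast_zero, zero_mul, add_zero]
  refine Finset.sum_congr rfl fun i _ => ?_
  have e1 : m + 1 - (i + 1) = m - i := by omega
  have e2 : k + (i + 1) = k + 1 + i := by omega
  rw [e1, e2, pow_succ]
  ring

lemma LL_of (F H : ℕ → ℕ → R) (h0 : ∀ c, F 0 c = H 0 c)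
    (h1 : ∀ m c, F (m + 1) c = H (m + 1) c + (q - 1) * F m (c + 1)) (m : ℕ) :
    ∀ k, LL q F m k = LL1 q H m k := by
  intro k
  have hH : ∀ m c, H (m + 1) c = F (m + 1) c - (q - 1) * F m (c + 1) := by
    intro m c
    rw [h1]; ring
  rcases m with _ | m
  · unfold LL LL1
    simp [h0]
  · unfold LL1
    rw [Finset.sum_range_succ]
    have e0 : m + 1 - (m + 1) = 0 := by omega
    rw [e0, ← h0]
    have h2 : ∀ i ∈ range (m + 1), (((k + 1 + i).choose (k + 1) : ℕ) : R) * (q - 1) ^ i *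
        H (m + 1 - i) (k + i) =
        ((k + 1 + i).choose (k + 1) : R) * (q - 1) ^ i * F (m + 1 - i) (k + i) -
        ((k + 1 + i).choose (k + 1) : R) * (q - 1) ^ (i + 1) * F (m - i) (k + i + 1) := by
      intro i hi
      rw [Finset.mem_range] at hi
      have e1 : m + 1 - i = m - i + 1 := by omega
      rw [e1, hH]
      ring
    rw [Finset.sum_congr rfl h2, Finset.sum_sub_distrib]
    have h3 : ∑ i ∈ range (m + 1), (((k + 1 + i).choose (k + 1) : ℕ) : R) * (q - 1) ^ (i + 1) *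
        F (m - i) (k + i + 1) =
        ∑ i ∈ range (m + 1 + 1), ((k + i).choose (k + 1) : R) * (q - 1) ^ i *
          F (m + 1 - i) (k + i) := by
      rw [Finset.sum_range_succ' _ (m + 1)]
      simp only [Nat.add_zero, Nat.choose_succ_self, Nat.cast_zero, zero_mul, add_zero]
      refine Finset.sum_congr rfl fun i _ => ?_
      have e1 : m + 1 - (i + 1) = m - i := by omega
      have e2 : k + (i + 1) = k + 1 + i := by omega
      have e3 : k + i + 1 = k + 1 + i := by omega
      rw [e1, e2, e3]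
    rw [h3]
    have h4 : ∑ i ∈ range (m + 1), (((k + 1 + i).choose (k + 1) : ℕ) : R) * (q - 1) ^ i *
        F (m + 1 - i) (k + i) +
        ((k + 1 + (m + 1)).choose (k + 1) : R) * (q - 1) ^ (m + 1) * F 0 (k + (m + 1)) =
        ∑ i ∈ range (m + 1 + 1), ((k + 1 + i).choose (k + 1) : R) * (q - 1) ^ i *
          F (m + 1 - i) (k + i) := by
      rw [Finset.sum_range_succ _ (m + 1), e0]
    have h5 : LL q F (m + 1) k = ∑ i ∈ range (m + 1 + 1),
        ((k + 1 + i).choose (k + 1) : R) * (q - 1) ^ i * F (m + 1 - i) (k + i) -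
        ∑ i ∈ range (m + 1 + 1), ((k + i).choose (k + 1) : R) * (q - 1) ^ i *
          F (m + 1 - i) (k + i) := by
      unfold LL
      rw [← Finset.sum_sub_distrib]
      refine Finset.sum_congr rfl fun i _ => ?_
      have e1 : k + 1 + i = k + i + 1 := by omega
      rw [e1, Nat.choose_succ_succ]
      push_cast
      ring
    rw [h5, ← h4]
    ring

lemma LL_congr (F H : ℕ → ℕ → R) (h : ∀ m c, F m c = H m c) (m k : ℕ) :
    LL q F m k = LL q H m k := by
  unfold LL
  refine Finset.sum_congr rfl fun i _ => ?_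
  rw [h]

lemma LL_add (F H : ℕ → ℕ → R) (m k : ℕ) :
    LL q (fun a b => F a b + H a b) m k = LL q F m k + LL q H m k := by
  unfold LL
  rw [← Finset.sum_add_distrib]
  refine Finset.sum_congr rfl fun i _ => ?_
  ring

lemma RR_DD (m p n : ℕ) : RR q m p n = DD (fun a b => RR q a (p + 1) b) m n + (B q m).1 p n := by
  rcases n with _ | n
  · rw [RR_zero]
    unfold DD
    simp
  · rw [RR_succ]
    unfold DD
    simp [add_comm]

lemma LL_gB (m p k : ℕ) : LL q (fun a b => (B q a).1 p b) m k =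
    LL1 q (fun a b => (B q a).2 p p b) m k :=
  LL_of q (fun a b => (B q a).1 p b) (fun a b => (B q a).2 p p b) (fun _ => rfl)
    (fun m c => gB_succ q m p c) m k

def PP (m : ℕ) : Prop := ∀ p k : ℕ, SS q m p k =
  ((m + k + 1).choose (m + 1) : R) * (q - 1) ^ (m + 1) + LL q (fun a b => RR q a p b) m k

def QQ (m : ℕ) : Prop := ∀ r P k : ℕ, (A q m).2 r P k = LL1 q (fun a b => (B q a).2 r P b) m k

lemma PP_zero : PP q 0 := by
  intro p k
  unfold SS LL RR G
  have ha : ∀ a b, (A q 0).1 a b = 1 := fun _ _ => rfl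
  have hb : ∀ a b, (B q 0).1 a b = 1 := fun _ _ => rfl
  simp only [ha, hb, Finset.sum_const, Finset.card_range, zero_add, Finset.range_one,
    Finset.sum_singleton]
  simp
  ring

lemma QQ_zero : QQ q 0 := by
  intro r P k
  unfold LL1
  simp [A, B]

lemma QQ_succ (m : ℕ) (hP : PP q m) (hQ : QQ q m) : QQ q (m + 1) := by
  intro r P k
  rw [uA_succ, hP P (k + 1)]
  unfold LL1
  rw [Finset.sum_range_succ]
  have e0 : m + 1 - (m + 1) = 0 := by omega
  rw [e0]
  have h2 : ∀ i ∈ range (m + 1), (((k + 1 + i).choose (k + 1) : ℕ) : R) * (q - 1) ^ i *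
      (B q (m + 1 - i)).2 r P (k + i) =
      q * ∑ l ∈ range r, (((k + 1 + i).choose (k + 1) : ℕ) : R) * (q - 1) ^ i *
        (B q (m - i)).2 (l + 1) (P + 1) (k + i) +
      ((k + 1 + i).choose (k + 1) : R) * (q - 1) ^ i * RR q (m - i) P (k + 1 + i) := by
    intro i hi
    rw [Finset.mem_range] at hi
    have e1 : m + 1 - i = m - i + 1 := by omega
    have e2 : k + i + 1 = k + 1 + i := by omega
    rw [e1, uB_succ, e2, ← Finset.mul_sum]
    ring
  rw [Finset.sum_congr rfl h2, Finset.sum_add_distrib, ← Finset.mul_sum, Finset.sum_comm]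
  have h3 : ∀ l ∈ range r, ∑ i ∈ range (m + 1), (((k + 1 + i).choose (k + 1) : ℕ) : R) *
      (q - 1) ^ i * (B q (m - i)).2 (l + 1) (P + 1) (k + i) = (A q m).2 (l + 1) (P + 1) k := by
    intro l _
    rw [hQ (l + 1) (P + 1) k]
    rfl
  rw [Finset.sum_congr rfl h3]
  have h4 : (B q 0).2 r P (k + (m + 1)) = 1 := rfl
  beta_reduce
  rw [h4]
  have h5 : (k + 1 + (m + 1)).choose (k + 1) = (m + (k + 1) + 1).choose (m + 1) := by
    have : k + 1 + (m + 1) = m + (k + 1) + 1 := by omega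
    rw [this]
    have h6 : m + (k + 1) + 1 = (k + 1) + (m + 1) := by omega
    rw [h6]
    exact Nat.choose_symm_add
  rw [h5]
  unfold LL
  ring

lemma PP_succ (m : ℕ) (hP : PP q m) (hQ : QQ q (m + 1)) : PP q (m + 1) := by
  have key : ∀ p k, LL q (fun a b => RR q a p b) (m + 1) k =
      LL q (DD (fun a b => RR q a (p + 1) b)) (m + 1) k + (A q (m + 1)).2 p p k := by
    intro p k
    rw [LL_congr q _ _ (fun a b => RR_DD q a p b), LL_add, LL_gB, ← hQ p p k]
  intro p k
  induction k generalizing p with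
  | zero =>
    rw [SS_zero, G_succ, key, LL_DD_zero, hP (p + 1) 0]
    simp only [Nat.add_zero, Nat.choose_self, Nat.cast_one, one_mul]
    ring
  | succ k ih =>
    rw [SS_succ, G_succ, key, LL_DD_succ, hP (p + 1) (k + 1), ih (p + 1)]
    have e : m + 1 + (k + 1) + 1 = m + 1 + k + 1 + 1 := by ring
    have e2 : m + (k + 1) + 1 = m + 1 + k + 1 := by ring
    rw [e, Nat.choose_succ_succ (m + 1 + k + 1) (m + 1), e2]
    push_cast
    ring

theorem PP_all (m : ℕ) : PP q m ∧ QQ q m := by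
  induction m with
  | zero => exact ⟨PP_zero q, QQ_zero q⟩
  | succ m ih =>
    have h := QQ_succ q m ih.1 ih.2
    exact ⟨PP_succ q m ih.1 h, h⟩

lemma gB_unroll (m : ℕ) : ∀ c : ℕ, (B q m).1 0 c = (q - 1) ^ m +
    ∑ i ∈ range m, (q - 1) ^ i * RR q (m - 1 - i) 0 (c + 1 + i) := by
  induction m with
  | zero => intro c; simp [B]
  | succ m ih =>
    intro c
    rw [gB_succ, uB_succ, ih (c + 1), Finset.sum_range_succ' _ m]
    simp only [Finset.range_zero, Finset.sum_empty, mul_zero, zero_add, pow_zero, one_mul,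
      Nat.add_zero, Nat.sub_zero, Nat.add_sub_cancel]
    rw [mul_add, Finset.mul_sum]
    have : ∀ i ∈ range m, (q - 1) * ((q - 1) ^ i * RR q (m - 1 - i) 0 (c + 1 + 1 + i)) =
        (q - 1) ^ (i + 1) * RR q (m - (i + 1)) 0 (c + 1 + (i + 1)) := by
      intro i _
      have e1 : m - 1 - i = m - (i + 1) := by omega
      have e2 : c + 1 + 1 + i = c + 1 + (i + 1) := by omega
      rw [e1, e2]
      ring
    rw [Finset.sum_congr rfl this]
    ring

theorem main (m : ℕ) : q * (A q m).1 0 0 = q * (B q m).1 0 0 := by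
  have h := (PP_all q m).1 0 0
  rw [SS_zero] at h
  unfold G LL at h
  rw [h]
  rw [Finset.sum_range_succ']
  simp only [Nat.choose_zero_right, Nat.cast_one, one_mul, pow_zero, Nat.sub_zero, Nat.add_zero,
    RR_zero]
  have h1 := gB_unroll q m 0
  have h2 : (q - 1) * (B q m).1 0 0 = (q - 1) ^ (m + 1) +
      ∑ i ∈ range m, (q - 1) ^ (i + 1) * RR q (m - (i + 1)) 0 (0 + (i + 1)) := by
    rw [h1, mul_add, Finset.mul_sum]
    congr 1
    · ring
    · refine Finset.sum_congr rfl fun i _ => ?_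
      have e1 : m - 1 - i = m - (i + 1) := by omega
      have e2 : 0 + 1 + i = 0 + (i + 1) := by omega
      rw [e1, e2]
      ring
  have h3 : (m + 1).choose (m + 1) = 1 := Nat.choose_self _
  rw [h3]
  linear_combination -h2

end Pool.Agent.Q95.DW
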