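import Pool.Agent.Q95.DW.Words

set_option autoImplicit false

open Finset
open scoped Classical

namespace Pool.Agent.Q95.DW

variable {R : Type*} [CommRing R] (q : R)

/-- value of a state (length `n + 1`, first letter `b`, threshold `V`) in the first tree -/
noncomputable def valA (m n b V : ℕ) : R :=
  if V = b then (A q m).1 b (n - b) else (A q m).2 (V - b - 1) V (n - V)

noncomputable def valB (m n b V : ℕ) : R :=
  if V = b then (B q m).1 b (n - b) else (B q m).2 (b + 1) V (n - V)

/-- threshold after prepending `v` -/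
def nxt (V v : ℕ) : ℕ := if v < V then V + 1 else v

lemma nxt_lt {V v : ℕ} (h : v < V) : nxt V v = V + 1 := if_pos h
lemma nxt_ge {V v : ℕ} (h : V ≤ v) : nxt V v = v := if_neg (by omega)
lemma valA_eq (m n b : ℕ) : valA q m n b b = (A q m).1 b (n - b) := if_pos rfl
lemma valA_ne (m n b V : ℕ) (h : V ≠ b) : valA q m n b V = (A q m).2 (V - b - 1) V (n - V) :=
  if_neg h
lemma valB_eq (m n b : ℕ) : valB q m n b b = (B q m).1 b (n - b) := if_pos rfl
lemma valB_ne (m n b V : ℕ) (h : V ≠ b) : valB q m n b V = (B q m).2 (b + 1) V (n - V) :=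
  if_neg h
lemma c1 {f : ℕ → ℕ → R} {a b a' b' : ℕ} (h1 : a = a') (h2 : b = b') : f a b = f a' b' := by
  rw [h1, h2]
lemma c2 {f : ℕ → ℕ → ℕ → R} {a b c a' b' c' : ℕ} (h1 : a = a') (h2 : b = b') (h3 : c = c') :
    f a b c = f a' b' c' := by
  rw [h1, h2, h3]

lemma stepA (m n b V : ℕ) (h1 : V = b ∨ b + 2 ≤ V) (h2 : V ≤ n) :
    ∑ v ∈ range (n + 2), (if (v ≤ b → V ≤ b + 1) then
      (if b < v then q else 1) * valA q m (n + 1) v (nxt V v) else 0) = valA q (m + 1) n b V := by
  rcases h1 with h1 | h1
  · subst h1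
    obtain ⟨c, rfl⟩ : ∃ c, n = V + c := ⟨n - V, by omega⟩
    have e1 : V + c + 2 = V + (1 + (c + 1)) := by ring
    rw [e1, Finset.sum_range_add, Finset.sum_range_add, Finset.sum_range_one]
    have t1 : ∀ v ∈ range V, (if (v ≤ V → V ≤ V + 1) then
        (if V < v then q else 1) * valA q m (V + c + 1) v (nxt V v) else 0) =
        (A q m).2 (V - v) (V + 1) c := by
      intro v hv
      rw [Finset.mem_range] at hv
      rw [if_pos (fun _ => by omega), if_neg (by omega), one_mul]
      rw [nxt_lt hv, valA_ne _ _ _ _ _ (by omega)]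
      exact c2 (by omega) (by omega) (by omega)
    have t2 : (if (V + 0 ≤ V → V ≤ V + 1) then
        (if V < V + 0 then q else 1) * valA q m (V + c + 1) (V + 0) (nxt V (V + 0)) else 0) =
        (A q m).1 V (c + 1) := by
      rw [if_pos (fun _ => by omega), if_neg (by omega), one_mul]
      rw [nxt_ge (by omega), valA_eq]
      exact c1 (by omega) (by omega)
    have t3 : ∀ j ∈ range (c + 1), (if (V + (1 + j) ≤ V → V ≤ V + 1) then
        (if V < V + (1 + j) then q else 1) * valA q m (V + c + 1) (V + (1 + j))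
          (nxt V (V + (1 + j))) else 0) = q * (A q m).1 (V + 1 + j) (c - j) := by
      intro j hj
      rw [Finset.mem_range] at hj
      rw [if_pos (fun _ => by omega), if_pos (by omega)]
      rw [nxt_ge (by omega), valA_eq]
      congr 1
      exact c1 (by omega) (by omega)
    rw [Finset.sum_congr rfl t1, t2, Finset.sum_congr rfl t3, ← Finset.mul_sum]
    rw [valA_eq]
    show _ = ∑ i ∈ range V, (A q m).2 (i + 1) (V + 1) (V + c - V) +
      (A q m).1 V (V + c - V + 1) + q * ∑ j ∈ range (V + c - V + 1), (A q m).1 (V + 1 + j) (V + c - V - j)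
    have e2 : V + c - V = c := by omega
    rw [e2, ← Finset.sum_range_reflect (fun i => (A q m).2 (i + 1) (V + 1) c)]
    have t4 : ∀ j ∈ range V, (A q m).2 (V - 1 - j + 1) (V + 1) c = (A q m).2 (V - j) (V + 1) c := by
      intro j hj
      rw [Finset.mem_range] at hj
      exact c2 (by omega) rfl rfl
    rw [Finset.sum_congr rfl t4]
    ring
  · obtain ⟨r, rfl⟩ : ∃ r, V = b + 1 + r := ⟨V - b - 1, by omega⟩
    obtain ⟨c, rfl⟩ : ∃ c, n = b + 1 + r + c := ⟨n - (b + 1 + r), by omega⟩
    have e1 : b + 1 + r + c + 2 = (b + 1) + (r + (c + 2)) := by ring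
    rw [e1, Finset.sum_range_add _ (b + 1) (r + (c + 2)), Finset.sum_range_add _ r (c + 2)]
    have t1 : ∀ v ∈ range (b + 1), (if (v ≤ b → b + 1 + r ≤ b + 1) then
        (if b < v then q else 1) * valA q m (b + 1 + r + c + 1) v (nxt (b + 1 + r) v) else 0) = 0 := by
      intro v hv
      rw [Finset.mem_range] at hv
      rw [if_neg]
      intro h
      have := h (by omega)
      omega
    have t2 : ∀ i ∈ range r, (if (b + 1 + i ≤ b → b + 1 + r ≤ b + 1) then
        (if b < b + 1 + i then q else 1) * valA q m (b + 1 + r + c + 1) (b + 1 + i)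
          (nxt (b + 1 + r) (b + 1 + i)) else 0) = q * (A q m).2 (r - i) (b + 1 + r + 1) c := by
      intro i hi
      rw [Finset.mem_range] at hi
      rw [if_pos (fun h => by omega), if_pos (by omega)]
      rw [nxt_lt (by omega), valA_ne _ _ _ _ _ (by omega)]
      congr 1
      exact c2 (by omega) (by omega) (by omega)
    have t3 : ∀ j ∈ range (c + 2), (if (b + 1 + (r + j) ≤ b → b + 1 + r ≤ b + 1) then
        (if b < b + 1 + (r + j) then q else 1) * valA q m (b + 1 + r + c + 1) (b + 1 + (r + j))
          (nxt (b + 1 + r) (b + 1 + (r + j))) else 0) =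
        q * (A q m).1 (b + 1 + r + j) (c + 1 - j) := by
      intro j hj
      rw [Finset.mem_range] at hj
      rw [if_pos (fun h => by omega), if_pos (by omega)]
      rw [nxt_ge (by omega), valA_eq]
      congr 1
      exact c1 (by omega) (by omega)
    rw [Finset.sum_congr rfl t1, Finset.sum_const_zero, zero_add, Finset.sum_congr rfl t2,
      Finset.sum_congr rfl t3, ← Finset.mul_sum, ← Finset.mul_sum, ← mul_add]
    rw [valA_ne _ _ _ _ _ (by omega)]
    have e2 : b + 1 + r - b - 1 = r := by omega
    have e3 : b + 1 + r + c - (b + 1 + r) = c := by omega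
    rw [e2, e3]
    show _ = q * (∑ i ∈ range r, (A q m).2 (i + 1) (b + 1 + r + 1) c +
      ∑ j ∈ range (c + 2), (A q m).1 (b + 1 + r + j) (c + 1 - j))
    rw [← Finset.sum_range_reflect (fun i => (A q m).2 (i + 1) (b + 1 + r + 1) c)]
    have t4 : ∀ j ∈ range r, (A q m).2 (r - 1 - j + 1) (b + 1 + r + 1) c =
        (A q m).2 (r - j) (b + 1 + r + 1) c := by
      intro j hj
      rw [Finset.mem_range] at hj
      exact c2 (by omega) rfl rfl
    rw [Finset.sum_congr rfl t4]

lemma stepB (m n b V : ℕ) (h1 : V = b ∨ b + 2 ≤ V) (h2 : V ≤ n) :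
    ∑ v ∈ range (n + 2), (if (b < v → V ≤ v) then
      (if v ≤ b then q else 1) * valB q m (n + 1) v (nxt V v) else 0) = valB q (m + 1) n b V := by
  rcases h1 with h1 | h1
  · subst h1
    obtain ⟨c, rfl⟩ : ∃ c, n = V + c := ⟨n - V, by omega⟩
    have e1 : V + c + 2 = V + (1 + (c + 1)) := by ring
    rw [e1, Finset.sum_range_add, Finset.sum_range_add, Finset.sum_range_one]
    have t1 : ∀ v ∈ range V, (if (V < v → V ≤ v) then
        (if v ≤ V then q else 1) * valB q m (V + c + 1) v (nxt V v) else 0) =
        q * (B q m).2 (v + 1) (V + 1) c := by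
      intro v hv
      rw [Finset.mem_range] at hv
      rw [if_pos (fun _ => by omega), if_pos (by omega)]
      rw [nxt_lt hv, valB_ne _ _ _ _ _ (by omega)]
      congr 1
      exact c2 (by omega) (by omega) (by omega)
    have t2 : (if (V < V + 0 → V ≤ V + 0) then
        (if V + 0 ≤ V then q else 1) * valB q m (V + c + 1) (V + 0) (nxt V (V + 0)) else 0) =
        q * (B q m).1 V (c + 1) := by
      rw [if_pos (fun _ => by omega), if_pos (by omega)]
      rw [nxt_ge (by omega), valB_eq]
      congr 1
      exact c1 (by omega) (by omega)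
    have t3 : ∀ j ∈ range (c + 1), (if (V < V + (1 + j) → V ≤ V + (1 + j)) then
        (if V + (1 + j) ≤ V then q else 1) * valB q m (V + c + 1) (V + (1 + j))
          (nxt V (V + (1 + j))) else 0) = (B q m).1 (V + 1 + j) (c - j) := by
      intro j hj
      rw [Finset.mem_range] at hj
      rw [if_pos (fun _ => by omega), if_neg (by omega), one_mul]
      rw [nxt_ge (by omega), valB_eq]
      exact c1 (by omega) (by omega)
    rw [Finset.sum_congr rfl t1, t2, Finset.sum_congr rfl t3, ← Finset.mul_sum]
    rw [valB_eq]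
    show _ = q * ∑ i ∈ range V, (B q m).2 (i + 1) (V + 1) (V + c - V) +
      q * (B q m).1 V (V + c - V + 1) + ∑ j ∈ range (V + c - V + 1), (B q m).1 (V + 1 + j) (V + c - V - j)
    have e2 : V + c - V = c := by omega
    rw [e2]
    ring
  · obtain ⟨r, rfl⟩ : ∃ r, V = b + 1 + r := ⟨V - b - 1, by omega⟩
    obtain ⟨c, rfl⟩ : ∃ c, n = b + 1 + r + c := ⟨n - (b + 1 + r), by omega⟩
    have e1 : b + 1 + r + c + 2 = (b + 1) + (r + (c + 2)) := by ring
    rw [e1, Finset.sum_range_add _ (b + 1) (r + (c + 2)), Finset.sum_range_add _ r (c + 2)]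
    have t1 : ∀ v ∈ range (b + 1), (if (b < v → b + 1 + r ≤ v) then
        (if v ≤ b then q else 1) * valB q m (b + 1 + r + c + 1) v (nxt (b + 1 + r) v) else 0) =
        q * (B q m).2 (v + 1) (b + 1 + r + 1) c := by
      intro v hv
      rw [Finset.mem_range] at hv
      rw [if_pos (fun _ => by omega), if_pos (by omega)]
      rw [nxt_lt (by omega), valB_ne _ _ _ _ _ (by omega)]
      congr 1
      exact c2 (by omega) (by omega) (by omega)
    have t2 : ∀ i ∈ range r, (if (b < b + 1 + i → b + 1 + r ≤ b + 1 + i) then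
        (if b + 1 + i ≤ b then q else 1) * valB q m (b + 1 + r + c + 1) (b + 1 + i)
          (nxt (b + 1 + r) (b + 1 + i)) else 0) = 0 := by
      intro i hi
      rw [Finset.mem_range] at hi
      rw [if_neg]
      intro h
      have := h (by omega)
      omega
    have t3 : ∀ j ∈ range (c + 2), (if (b < b + 1 + (r + j) → b + 1 + r ≤ b + 1 + (r + j)) then
        (if b + 1 + (r + j) ≤ b then q else 1) * valB q m (b + 1 + r + c + 1) (b + 1 + (r + j))
          (nxt (b + 1 + r) (b + 1 + (r + j))) else 0) =
        (B q m).1 (b + 1 + r + j) (c + 1 - j) := by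
      intro j hj
      rw [Finset.mem_range] at hj
      rw [if_pos (fun h => by omega), if_neg (by omega), one_mul]
      rw [nxt_ge (by omega), valB_eq]
      exact c1 (by omega) (by omega)
    rw [Finset.sum_congr rfl t1, Finset.sum_congr rfl t2, Finset.sum_const_zero, zero_add,
      Finset.sum_congr rfl t3, ← Finset.mul_sum]
    rw [valB_ne _ _ _ _ _ (by omega)]
    have e3 : b + 1 + r + c - (b + 1 + r) = c := by omega
    rw [e3]
    rfl

lemma totalA (m : ℕ) : ∀ n : ℕ,
    ∑ w ∈ (PW (n + 1)).filter okA, q ^ adj (fun a b => b < a) w * valA q m n (w 0) (thr w) =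
    ∑ w ∈ (PW (n + 1 + m)).filter okA, q ^ adj (fun a b => b < a) w := by
  induction m with
  | zero =>
    intro n
    refine Finset.sum_congr rfl fun w _ => ?_
    unfold valA
    split_ifs
    · show _ * 1 = _
      rw [mul_one]
    · show _ * 1 = _
      rw [mul_one]
  | succ m ih =>
    intro n
    have e : n + 1 + (m + 1) = (n + 1) + 1 + m := by ring
    rw [e, ← ih (n + 1), Finset.sum_filter, Finset.sum_filter, sum_step (n + 1)]
    refine Finset.sum_congr rfl fun w hw => ?_
    rw [mem_PW] at hw
    have hinv := thr_inv w hw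
    by_cases hok : okA w
    · rw [if_pos hok, ← stepA q m n (w 0) (thr w) hinv.1 hinv.2, Finset.mul_sum]
      refine Finset.sum_congr rfl fun v hv => ?_
      rw [Finset.mem_range] at hv
      have hpw : pre w v 0 = v := rfl
      by_cases hc : v ≤ w 0 → thr w ≤ w 0 + 1
      · rw [if_pos hc, if_pos ((okA_pre w v hw).2 ⟨hok, hc⟩),
          adj_pre (fun a b => b < a) w v (fun a b => shift_lt v b a), thr_pre w hw v hv, hpw]
        have h1 : shift v (w 0) < v ↔ w 0 < v := by
          unfold shift
          split_ifs <;> omega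
        simp only [h1]
        show q ^ adj (fun a b => b < a) w * ((if w 0 < v then q else 1) *
          valA q m (n + 1) v (nxt (thr w) v)) =
          q ^ (adj (fun a b => b < a) w + if w 0 < v then 1 else 0) *
          valA q m (n + 1) v (nxt (thr w) v)
        by_cases h2 : w 0 < v
        · rw [if_pos h2, if_pos h2, pow_add, pow_one]
          ring
        · rw [if_neg h2, if_neg h2, add_zero]
          ring
      · rw [if_neg hc, if_neg (fun h => hc ((okA_pre w v hw).1 h).2), mul_zero]
    · rw [if_neg hok]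
      symm
      refine Finset.sum_eq_zero fun v _ => ?_
      rw [if_neg (fun h => hok ((okA_pre w v hw).1 h).1)]

lemma totalB (m : ℕ) : ∀ n : ℕ,
    ∑ w ∈ (PW (n + 1)).filter okB, q ^ adj (fun a b => a < b) w * valB q m n (w 0) (thr w) =
    ∑ w ∈ (PW (n + 1 + m)).filter okB, q ^ adj (fun a b => a < b) w := by
  induction m with
  | zero =>
    intro n
    refine Finset.sum_congr rfl fun w _ => ?_
    unfold valB
    split_ifs
    · show _ * 1 = _
      rw [mul_one]
    · show _ * 1 = _
      rw [mul_one]
  | succ m ih =>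
    intro n
    have e : n + 1 + (m + 1) = (n + 1) + 1 + m := by ring
    rw [e, ← ih (n + 1), Finset.sum_filter, Finset.sum_filter, sum_step (n + 1)]
    refine Finset.sum_congr rfl fun w hw => ?_
    rw [mem_PW] at hw
    have hinv := thr_inv w hw
    by_cases hok : okB w
    · rw [if_pos hok, ← stepB q m n (w 0) (thr w) hinv.1 hinv.2, Finset.mul_sum]
      refine Finset.sum_congr rfl fun v hv => ?_
      rw [Finset.mem_range] at hv
      have hpw : pre w v 0 = v := rfl
      by_cases hc : w 0 < v → thr w ≤ v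
      · rw [if_pos hc, if_pos ((okB_pre w v hw).2 ⟨hok, hc⟩),
          adj_pre (fun a b => a < b) w v (fun a b => shift_lt v a b), thr_pre w hw v hv, hpw]
        have h1 : v < shift v (w 0) ↔ v ≤ w 0 := by
          unfold shift
          split_ifs <;> omega
        simp only [h1]
        show q ^ adj (fun a b => a < b) w * ((if v ≤ w 0 then q else 1) *
          valB q m (n + 1) v (nxt (thr w) v)) =
          q ^ (adj (fun a b => a < b) w + if v ≤ w 0 then 1 else 0) *
          valB q m (n + 1) v (nxt (thr w) v)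
        by_cases h2 : v ≤ w 0
        · rw [if_pos h2, if_pos h2, pow_add, pow_one]
          ring
        · rw [if_neg h2, if_neg h2, add_zero]
          ring
      · rw [if_neg hc, if_neg (fun h => hc ((okB_pre w v hw).1 h).2), mul_zero]
    · rw [if_neg hok]
      symm
      refine Finset.sum_eq_zero fun v _ => ?_
      rw [if_neg (fun h => hok ((okB_pre w v hw).1 h).1)]

lemma PW_one : PW 1 = {fun _ => 0} := by
  ext w
  rw [mem_PW, Finset.mem_singleton]
  constructor
  · intro h
    funext i
    have := h.1 i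
    omega
  · rintro rfl
    exact ⟨fun i => Nat.zero_lt_one, fun i j _ => Subsingleton.elim _ _⟩

lemma adj_one (r : ℕ → ℕ → Prop) (w : Fin 1 → ℕ) : adj r w = 0 := by
  unfold adj
  rw [Finset.card_eq_zero, Finset.filter_eq_empty_iff]
  rintro i _ ⟨h, _⟩
  omega

lemma thr_one : thr (fun _ : Fin 1 => 0) = 0 := by
  unfold thr
  have : inc (fun _ : Fin 1 => 0) 0 := by
    intro i j hij
    exact absurd hij (by rw [Subsingleton.elim i j]; exact lt_irrefl _)
  exact Nat.le_zero.1 (Nat.sInf_le this)

lemma totA (m : ℕ) :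
    ∑ w ∈ (PW (m + 1)).filter okA, q ^ adj (fun a b => b < a) w = (A q m).1 0 0 := by
  have h := totalA q m 0
  have e : 0 + 1 + m = m + 1 := by ring
  rw [e] at h
  rw [← h]
  show ∑ w ∈ (PW 1).filter okA, _ = _
  have hok : okA (fun _ : Fin 1 => 0) := by
    intro a b c d hab
    have := b.2
    have := a.2
    omega
  rw [PW_one, Finset.filter_singleton, if_pos hok, Finset.sum_singleton, adj_one, thr_one]
  unfold valA
  simp

lemma totB (m : ℕ) :
    ∑ w ∈ (PW (m + 1)).filter okB, q ^ adj (fun a b => a < b) w = (B q m).1 0 0 := by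
  have h := totalB q m 0
  have e : 0 + 1 + m = m + 1 := by ring
  rw [e] at h
  rw [← h]
  show ∑ w ∈ (PW 1).filter okB, _ = _
  have hok : okB (fun _ : Fin 1 => 0) := by
    intro a b c d hab
    have := b.2
    have := a.2
    omega
  rw [PW_one, Finset.filter_singleton, if_pos hok, Finset.sum_singleton, adj_one, thr_one]
  unfold valB
  simp

/-- the equidistribution on words -/
theorem words_eq (m : ℕ) (hq : ∀ a b : R, q * a = q * b → a = b) :
    ∑ w ∈ (PW (m + 1)).filter okA, q ^ adj (fun a b => b < a) w =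
    ∑ w ∈ (PW (m + 1)).filter okB, q ^ adj (fun a b => a < b) w := by
  rw [totA, totB]
  exact hq _ _ (main q m)

end Pool.Agent.Q95.DW
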