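import Pool.Agent.Q95.DW.Alg

set_option autoImplicit false

open Finset
open scoped Classical

namespace Pool.Agent.Q95.DW

def shift (v a : ℕ) : ℕ := if a < v then a else a + 1

lemma shift_lt (v a b : ℕ) : shift v a < shift v b ↔ a < b := by
  unfold shift
  split_ifs <;> omega

lemma shift_inj (v : ℕ) : Function.Injective (shift v) := by
  intro a b h
  unfold shift at h
  split_ifs at h <;> omega

lemma shift_ne (v a : ℕ) : shift v a ≠ v := by
  unfold shift
  split_ifs <;> omega

def unshift (v a : ℕ) : ℕ := if a < v then a else a - 1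

lemma unshift_shift (v a : ℕ) : unshift v (shift v a) = a := by
  unfold unshift shift
  split_ifs <;> omega

lemma shift_unshift (v a : ℕ) (h : a ≠ v) : shift v (unshift v a) = a := by
  unfold unshift shift
  split_ifs <;> omega

/-- prepend the value `v` -/
def pre {n : ℕ} (w : Fin n → ℕ) (v : ℕ) : Fin (n + 1) → ℕ := Fin.cons v (fun i => shift v (w i))

@[simp] lemma pre_zero {n : ℕ} (w : Fin n → ℕ) (v : ℕ) : pre w v 0 = v := rfl

@[simp] lemma pre_succ {n : ℕ} (w : Fin n → ℕ) (v : ℕ) (i : Fin n) :
    pre w v i.succ = shift v (w i) := rfl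

def isP {n : ℕ} (w : Fin n → ℕ) : Prop := (∀ i, w i < n) ∧ Function.Injective w

lemma surj {n : ℕ} (w : Fin n → ℕ) (hw : isP w) (x : ℕ) (hx : x < n) : ∃ i, w i = x := by
  have h3 : Function.Injective (fun i => (⟨w i, hw.1 i⟩ : Fin n)) := by
    intro a b h
    exact hw.2 (by simpa using h)
  obtain ⟨i, hi⟩ := (Finite.injective_iff_surjective.1 h3) ⟨x, hx⟩
  exact ⟨i, by simpa using congrArg Fin.val hi⟩

lemma isP_pre {n : ℕ} (w : Fin n → ℕ) (v : ℕ) : isP (pre w v) ↔ isP w ∧ v < n + 1 := by
  unfold isP
  constructor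
  · rintro ⟨h1, h2⟩
    have hv : v < n + 1 := h1 0
    refine ⟨⟨fun i => ?_, fun i j hij => ?_⟩, hv⟩
    · have h4 := h1 i.succ
      rw [pre_succ] at h4
      unfold shift at h4
      split_ifs at h4 <;> omega
    · have : i.succ = j.succ := h2 (by rw [pre_succ, pre_succ, hij])
      exact Fin.succ_injective _ this
  · rintro ⟨⟨h1, h2⟩, h3⟩
    refine ⟨fun i => ?_, fun i j hij => ?_⟩
    · refine Fin.cases h3 (fun i => ?_) i
      rw [pre_succ]
      have := h1 i
      unfold shift
      split_ifs <;> omega
    · induction i using Fin.cases with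
      | zero =>
        induction j using Fin.cases with
        | zero => rfl
        | succ j =>
          rw [pre_zero, pre_succ] at hij
          exact absurd hij.symm (shift_ne _ _)
      | succ i =>
        induction j using Fin.cases with
        | zero =>
          rw [pre_zero, pre_succ] at hij
          exact absurd hij (shift_ne _ _)
        | succ j =>
          rw [pre_succ, pre_succ] at hij
          rw [h2 (shift_inj _ hij)]

noncomputable def PW (n : ℕ) : Finset (Fin n → ℕ) :=
  (Fintype.piFinset fun _ : Fin n => range n).filter isP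

lemma mem_PW {n : ℕ} (w : Fin n → ℕ) : w ∈ PW n ↔ isP w := by
  unfold PW
  simp only [Finset.mem_filter, Fintype.mem_piFinset, Finset.mem_range]
  constructor
  · exact fun h => h.2
  · intro h
    exact ⟨fun i => h.1 i, h⟩

/-- summation over words by the first letter -/
lemma sum_step {R : Type*} [CommRing R] (n : ℕ) (F : (Fin (n + 1) → ℕ) → R) :
    ∑ w' ∈ PW (n + 1), F w' = ∑ w ∈ PW n, ∑ v ∈ range (n + 1), F (pre w v) := by
  rw [Finset.sum_sigma' (PW n) (fun _ => range (n + 1))]
  symm
  have key : ∀ w' : Fin (n + 1) → ℕ, Function.Injective w' →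
      pre (fun i : Fin n => unshift (w' 0) (w' i.succ)) (w' 0) = w' := by
    intro w' hw
    funext i
    induction i using Fin.cases with
    | zero => simp
    | succ i =>
      rw [pre_succ, shift_unshift]
      intro h
      exact absurd (hw h) (Fin.succ_ne_zero i)
  refine Finset.sum_nbij' (fun x : (Σ _ : Fin n → ℕ, ℕ) => (pre x.1 x.2 : Fin (n + 1) → ℕ))
    (fun w' => ⟨fun i : Fin n => unshift (w' 0) (w' i.succ), w' 0⟩) ?_ ?_ ?_ ?_ ?_
  · rintro ⟨w, v⟩ h
    rw [Finset.mem_sigma] at h
    rw [mem_PW]
    exact (isP_pre w v).2 ⟨(mem_PW w).1 h.1, Finset.mem_range.1 h.2⟩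
  · intro w' hw
    rw [mem_PW] at hw
    rw [Finset.mem_sigma, mem_PW, Finset.mem_range]
    apply (isP_pre _ _).1
    rw [key w' hw.2]
    exact hw
  · rintro ⟨w, v⟩ h
    have : (fun i : Fin n => unshift v (shift v (w i))) = w := by
      funext i
      rw [unshift_shift]
    simp only [pre_zero, pre_succ]
    rw [this]
  · intro w' hw
    rw [mem_PW] at hw
    exact key w' hw.2
  · rintro ⟨w, v⟩ h
    rfl

/-- the values at least `t` increase -/
def inc {n : ℕ} (w : Fin n → ℕ) (t : ℕ) : Prop :=
  ∀ i j : Fin n, i < j → t ≤ w i → t ≤ w j → w i < w j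

lemma inc_mono {n : ℕ} (w : Fin n → ℕ) {s t : ℕ} (h : s ≤ t) (hs : inc w s) : inc w t :=
  fun i j hij hi hj => hs i j hij (h.trans hi) (h.trans hj)

lemma inc_top {n : ℕ} (w : Fin n → ℕ) (hw : isP w) : inc w n := by
  intro i j _ hi _
  exact absurd (hw.1 i) (by omega)

noncomputable def thr {n : ℕ} (w : Fin n → ℕ) : ℕ := sInf {t | inc w t}

lemma inc_iff {n : ℕ} (w : Fin n → ℕ) (hw : isP w) (t : ℕ) : inc w t ↔ thr w ≤ t := by
  constructor
  · intro h
    exact Nat.sInf_le h
  · intro h
    have : inc w (thr w) := Nat.sInf_mem (s := {t | inc w t}) ⟨n, inc_top w hw⟩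
    exact inc_mono w h this

lemma thr_eq {n : ℕ} (w : Fin n → ℕ) (hw : isP w) (V : ℕ) (h : ∀ t, inc w t ↔ V ≤ t) :
    thr w = V := by
  apply le_antisymm
  · exact (inc_iff w hw V).1 ((h V).2 le_rfl)
  · exact (h _).1 ((inc_iff w hw _).2 le_rfl)

lemma thr_pre {n : ℕ} (w : Fin n → ℕ) (hw : isP w) (v : ℕ) (hv : v < n + 1) :
    thr (pre w v) = if v < thr w then thr w + 1 else v := by
  have hp : isP (pre w v) := (isP_pre w v).2 ⟨hw, hv⟩
  apply thr_eq _ hp
  intro t
  have hlow : t < v → ¬ inc (pre w v) t := by
    intro ht h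
    obtain ⟨i, hi⟩ := surj w hw t (by omega)
    have := h 0 i.succ (Fin.succ_pos i) (by rw [pre_zero]; omega) (by
      rw [pre_succ]; unfold shift; split_ifs <;> omega)
    rw [pre_zero, pre_succ] at this
    unfold shift at this
    split_ifs at this <;> omega
  have hmid : inc (pre w v) v ↔ inc w v := by
    constructor
    · intro h i j hij hi hj
      have := h i.succ j.succ (Fin.succ_lt_succ_iff.2 hij) (by
        rw [pre_succ]; unfold shift; split_ifs <;> omega) (by
        rw [pre_succ]; unfold shift; split_ifs <;> omega)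
      rwa [pre_succ, pre_succ, shift_lt] at this
    · intro h i j hij hi hj
      induction i using Fin.cases with
      | zero =>
        induction j using Fin.cases with
        | zero => exact absurd hij (lt_irrefl _)
        | succ j =>
          rw [pre_zero]
          rw [pre_succ] at hj ⊢
          have := shift_ne v (w j)
          omega
      | succ i =>
        induction j using Fin.cases with
        | zero => exact absurd hij (Fin.not_lt_zero _)
        | succ j =>
          rw [pre_succ] at hi hj ⊢
          rw [pre_succ, shift_lt]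
          apply h i j (Fin.succ_lt_succ_iff.1 hij)
          · unfold shift at hi; split_ifs at hi <;> omega
          · unfold shift at hj; split_ifs at hj <;> omega
  have hhigh : v < t → (inc (pre w v) t ↔ inc w (t - 1)) := by
    intro ht
    constructor
    · intro h i j hij hi hj
      have := h i.succ j.succ (Fin.succ_lt_succ_iff.2 hij) (by
        rw [pre_succ]; unfold shift; split_ifs <;> omega) (by
        rw [pre_succ]; unfold shift; split_ifs <;> omega)
      rwa [pre_succ, pre_succ, shift_lt] at this
    · intro h i j hij hi hj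
      induction i using Fin.cases with
      | zero =>
        rw [pre_zero] at hi
        omega
      | succ i =>
        induction j using Fin.cases with
        | zero => exact absurd hij (Fin.not_lt_zero _)
        | succ j =>
          rw [pre_succ] at hi hj ⊢
          rw [pre_succ, shift_lt]
          apply h i j (Fin.succ_lt_succ_iff.1 hij)
          · unfold shift at hi; split_ifs at hi <;> omega
          · unfold shift at hj; split_ifs at hj <;> omega
  rcases lt_trichotomy t v with h | h | h
  · constructor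
    · intro h2
      exact absurd h2 (hlow h)
    · intro h2
      split_ifs at h2 <;> omega
  · subst h
    rw [hmid, inc_iff w hw]
    split_ifs <;> omega
  · rw [hhigh h, inc_iff w hw]
    split_ifs <;> omega

/-- the state invariants -/
lemma thr_inv {n : ℕ} (w : Fin (n + 1) → ℕ) (hw : isP w) :
    (thr w = w 0 ∨ w 0 + 2 ≤ thr w) ∧ thr w ≤ n := by
  have key : pre (fun i : Fin n => unshift (w 0) (w i.succ)) (w 0) = w := by
    funext i
    induction i using Fin.cases with
    | zero => simp
    | succ i =>
      rw [pre_succ, shift_unshift]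
      intro h
      exact absurd (hw.2 h) (Fin.succ_ne_zero i)
  set u : Fin n → ℕ := fun i : Fin n => unshift (w 0) (w i.succ) with hu
  have hu2 : isP u ∧ w 0 < n + 1 := (isP_pre u (w 0)).1 (by rw [key]; exact hw)
  have h1 := thr_pre u hu2.1 (w 0) hu2.2
  rw [key] at h1
  have h3 : thr u ≤ n := (inc_iff u hu2.1 n).1 (inc_top u hu2.1)
  rcases n with _ | n
  · have h4 : thr u = 0 := by omega
    rw [h4] at h1
    simp only [Nat.not_lt_zero, if_false] at h1
    omega
  · have h5 : thr u ≤ n := by
      apply (inc_iff u hu2.1 n).1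
      intro i j hij hi hj
      exfalso
      have a1 := hu2.1.1 i
      have a2 := hu2.1.1 j
      have : u i = u j := by omega
      exact absurd (hu2.1.2 this) hij.ne
    have := hu2.2
    split_ifs at h1 <;> omega

/-- number of adjacent positions in relation `r` -/
noncomputable def adj {n : ℕ} (r : ℕ → ℕ → Prop) (w : Fin n → ℕ) : ℕ :=
  (Finset.univ.filter fun i : Fin n => ∃ h : (i : ℕ) + 1 < n, r (w i) (w ⟨i + 1, h⟩)).card

lemma adj_pre {n : ℕ} (r : ℕ → ℕ → Prop) (w : Fin (n + 1) → ℕ) (v : ℕ)
    (hr : ∀ a b, r (shift v a) (shift v b) ↔ r a b) :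
    adj r (pre w v) = adj r w + if r v (shift v (w 0)) then 1 else 0 := by
  unfold adj
  rw [Fin.card_filter_univ_succ]
  have h1 : (∃ h : ((0 : Fin (n + 1 + 1)) : ℕ) + 1 < n + 1 + 1,
      r (pre w v 0) (pre w v ⟨((0 : Fin (n + 1 + 1)) : ℕ) + 1, h⟩)) ↔ r v (shift v (w 0)) := by
    constructor
    · rintro ⟨h, h2⟩
      exact h2
    · intro h
      exact ⟨by simp, h⟩
  have h2 : (Finset.univ.filter (fun i : Fin (n + 1) => ∃ h : ((i.succ : Fin (n + 1 + 1)) : ℕ) + 1 <
      n + 1 + 1, r (pre w v i.succ) (pre w v ⟨((i.succ : Fin (n + 1 + 1)) : ℕ) + 1, h⟩))).card =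
      (Finset.univ.filter fun i : Fin (n + 1) => ∃ h : (i : ℕ) + 1 < n + 1,
        r (w i) (w ⟨i + 1, h⟩)).card := by
    congr 1
    ext i
    simp only [Finset.mem_filter, Finset.mem_univ, true_and]
    constructor
    · rintro ⟨h, h3⟩
      have h4 : (i : ℕ) + 1 < n + 1 := by simpa using h
      refine ⟨h4, ?_⟩
      have h5 : (⟨(i.succ : ℕ) + 1, h⟩ : Fin (n + 1 + 1)) = (⟨(i : ℕ) + 1, h4⟩ : Fin (n + 1)).succ := by
        apply Fin.ext
        simp
      rw [h5, pre_succ, pre_succ, hr] at h3
      exact h3
    · rintro ⟨h, h3⟩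
      have h4 : ((i.succ : Fin (n + 1 + 1)) : ℕ) + 1 < n + 1 + 1 := by simpa using h
      refine ⟨h4, ?_⟩
      have h5 : (⟨(i.succ : ℕ) + 1, h4⟩ : Fin (n + 1 + 1)) = (⟨(i : ℕ) + 1, h⟩ : Fin (n + 1)).succ := by
        apply Fin.ext
        simp
      rw [h5, pre_succ, pre_succ, hr]
      exact h3
  rw [h2]
  simp only [h1]
  split_ifs <;> rfl

/-- avoidance of 1243 with adjacent first two letters -/
def okA {n : ℕ} (w : Fin n → ℕ) : Prop :=
  ∀ a b c d : Fin n, (a : ℕ) + 1 = b → b < c → c < d → ¬ (w a < w b ∧ w b < w d ∧ w d < w c)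

/-- avoidance of 2143 with adjacent first two letters -/
def okB {n : ℕ} (w : Fin n → ℕ) : Prop :=
  ∀ a b c d : Fin n, (a : ℕ) + 1 = b → b < c → c < d → ¬ (w b < w a ∧ w a < w d ∧ w d < w c)

lemma okA_pre {n : ℕ} (w : Fin (n + 1) → ℕ) (v : ℕ) (hw : isP w) :
    okA (pre w v) ↔ okA w ∧ (v ≤ w 0 → thr w ≤ w 0 + 1) := by
  rw [← inc_iff w hw]
  constructor
  · intro h
    refine ⟨fun a b c d hab hbc hcd => ?_, fun hv i j hij hi hj => ?_⟩
    · have := h a.succ b.succ c.succ d.succ (by simpa using hab) (by simpa using hbc)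
        (by simpa using hcd)
      simpa only [pre_succ, shift_lt] using this
    · by_contra hlt
      have hne : w i ≠ w j := fun h2 => absurd (hw.2 h2) hij.ne
      have hi0 : i ≠ 0 := by
        rintro rfl
        omega
      have hi1 : 0 < i := Fin.pos_iff_ne_zero.2 hi0
      have := h 0 (0 : Fin (n + 1)).succ i.succ j.succ (by simp) (Fin.succ_lt_succ_iff.2 hi1)
        (by simpa using hij)
      simp only [pre_succ, shift_lt, pre_zero] at this
      apply this
      refine ⟨?_, by omega, by omega⟩
      unfold shift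
      split_ifs <;> omega
  · rintro ⟨h1, h2⟩ a b c d hab hbc hcd
    have hb : b ≠ 0 := by
      rintro rfl
      simp at hab
    obtain ⟨b', rfl⟩ := Fin.exists_succ_eq.2 hb
    have hc : c ≠ 0 := by
      rintro rfl
      exact absurd hbc (Fin.not_lt_zero _)
    obtain ⟨c', rfl⟩ := Fin.exists_succ_eq.2 hc
    have hd : d ≠ 0 := by
      rintro rfl
      exact absurd hcd (Fin.not_lt_zero _)
    obtain ⟨d', rfl⟩ := Fin.exists_succ_eq.2 hd
    induction a using Fin.cases with
    | zero =>
      have hb' : b' = 0 := by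
        simp at hab
        exact hab
      subst hb'
      simp only [pre_succ, shift_lt, pre_zero]
      rintro ⟨h3, h4, h5⟩
      have h6 : v ≤ w 0 := by
        unfold shift at h3
        split_ifs at h3 <;> omega
      have := h2 h6 c' d' (by simpa using hcd) (by omega) (by omega)
      omega
    | succ a =>
      simp only [pre_succ, shift_lt]
      exact h1 a b' c' d' (by simpa using hab) (by simpa using hbc) (by simpa using hcd)

lemma okB_pre {n : ℕ} (w : Fin (n + 1) → ℕ) (v : ℕ) (hw : isP w) :
    okB (pre w v) ↔ okB w ∧ (w 0 < v → thr w ≤ v) := by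
  rw [← inc_iff w hw]
  constructor
  · intro h
    refine ⟨fun a b c d hab hbc hcd => ?_, fun hv i j hij hi hj => ?_⟩
    · have := h a.succ b.succ c.succ d.succ (by simpa using hab) (by simpa using hbc)
        (by simpa using hcd)
      simpa only [pre_succ, shift_lt] using this
    · by_contra hlt
      have hne : w i ≠ w j := fun h2 => absurd (hw.2 h2) hij.ne
      have hi0 : i ≠ 0 := by
        rintro rfl
        omega
      have hi1 : 0 < i := Fin.pos_iff_ne_zero.2 hi0
      have := h 0 (0 : Fin (n + 1)).succ i.succ j.succ (by simp) (Fin.succ_lt_succ_iff.2 hi1)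
        (by simpa using hij)
      simp only [pre_succ, shift_lt, pre_zero] at this
      apply this
      refine ⟨?_, ?_, by omega⟩
      · unfold shift
        split_ifs <;> omega
      · unfold shift
        split_ifs <;> omega
  · rintro ⟨h1, h2⟩ a b c d hab hbc hcd
    have hb : b ≠ 0 := by
      rintro rfl
      simp at hab
    obtain ⟨b', rfl⟩ := Fin.exists_succ_eq.2 hb
    have hc : c ≠ 0 := by
      rintro rfl
      exact absurd hbc (Fin.not_lt_zero _)
    obtain ⟨c', rfl⟩ := Fin.exists_succ_eq.2 hc
    have hd : d ≠ 0 := by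
      rintro rfl
      exact absurd hcd (Fin.not_lt_zero _)
    obtain ⟨d', rfl⟩ := Fin.exists_succ_eq.2 hd
    induction a using Fin.cases with
    | zero =>
      have hb' : b' = 0 := by
        simp at hab
        exact hab
      subst hb'
      simp only [pre_succ, shift_lt, pre_zero]
      rintro ⟨h3, h4, h5⟩
      have h6 : w 0 < v := by
        unfold shift at h3
        split_ifs at h3 <;> omega
      have h7 : v ≤ w d' := by
        unfold shift at h4
        split_ifs at h4 <;> omega
      have := h2 h6 c' d' (by simpa using hcd) (by omega) (by omega)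
      omega
    | succ a =>
      simp only [pre_succ, shift_lt]
      exact h1 a b' c' d' (by simpa using hab) (by simpa using hbc) (by simpa using hcd)

end Pool.Agent.Q95.DW
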